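import Pool.Agent.Y885.LW2

set_option autoImplicit false

/-! Independent random integers of any size and in any number: if the differences of their values serve a rich set of
scales, then the large spectrum of the multiples of their sum is thin. After `Pool.Agent.Y885.RS2`. -/

namespace Pool.Agent.HP84.RS
open Finset
open Pool.Agent.H807R2.Dav
open Pool.Agent.H373R2.T7
open Pool.Agent.Y885 (fp Far FewFar Dense Thin TLaw Spec char_all rd_natAbs Rich thin_of)

open Classical in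
/-- the probability that the difference of two independent copies has the scale `j` -/
noncomputable def scp (B b j : ℕ) (s : Finset ℤ) (p : ℤ → ℝ) : ℝ :=
  ∑ x ∈ s, ∑ y ∈ s, if (b : ℤ) ^ j ≤ B * |x - y| ∧ |x - y| ≤ B * (b : ℤ) ^ j then p x * p y else 0

open Classical in
/-- the probability that the difference of two independent copies has the scale `j` and is far -/
noncomputable def fq (B b j : ℕ) (s : Finset ℤ) (p : ℤ → ℝ) (κ θ : ℝ) : ℝ :=
  ∑ x ∈ s, ∑ y ∈ s, if ((b : ℤ) ^ j ≤ B * |x - y| ∧ |x - y| ≤ B * (b : ℤ) ^ j) ∧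
    κ < |((x - y : ℤ) : ℝ) * θ - round (((x - y : ℤ) : ℝ) * θ)| then p x * p y else 0

open Classical in
/-- a difference has few scales -/
lemma overlap (B b : ℕ) (hb : 2 ≤ b) (J : Finset ℕ) (z : ℤ) :
    (J.filter (fun j => (b : ℤ) ^ j ≤ B * |z| ∧ |z| ≤ B * (b : ℤ) ^ j)).card ≤ 2 * B := by
  obtain ⟨S, hS⟩ : ∃ S, S = J.filter (fun j => (b : ℤ) ^ j ≤ B * |z| ∧ |z| ≤ B * (b : ℤ) ^ j) := ⟨_, rfl⟩
  rw [← hS]
  rcases S.eq_empty_or_nonempty with h | h
  · rw [h]; simp
  · obtain ⟨j₀, hj₀, hmin⟩ := exists_min_image S (fun j => j) h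
    have hsub : S ⊆ Ico j₀ (j₀ + 2 * B) := by
      intro j hj
      rw [mem_Ico]
      refine ⟨hmin j hj, ?_⟩
      by_contra hcon
      push Not at hcon
      have h1 := (mem_filter.1 (hS ▸ hj)).2.1
      have h2 := (mem_filter.1 (hS ▸ hj₀)).2.2
      have hbz : (2 : ℤ) ≤ b := by exact_mod_cast hb
      have h3 : (B : ℤ) < (b : ℤ) ^ B := by exact_mod_cast Nat.lt_pow_self (by omega : 1 < b)
      have h4 : (b : ℤ) ^ j ≤ B * (B * (b : ℤ) ^ j₀) := h1.trans (mul_le_mul_of_nonneg_left h2 (by positivity))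
      have h5 : (b : ℤ) ^ (j₀ + 2 * B) ≤ (b : ℤ) ^ j := pow_le_pow_right₀ (by linarith) hcon
      have h6 : (b : ℤ) ^ (j₀ + 2 * B) = (b : ℤ) ^ B * ((b : ℤ) ^ B * (b : ℤ) ^ j₀) := by
        rw [← pow_add, ← pow_add]
        congr 1
        omega
      have h7 : (0 : ℤ) < (b : ℤ) ^ j₀ := by positivity
      have hB0 : (0 : ℤ) ≤ B := by positivity
      have h8 : (B : ℤ) * (B * (b : ℤ) ^ j₀) < (b : ℤ) ^ B * ((b : ℤ) ^ B * (b : ℤ) ^ j₀) := by
        apply mul_lt_mul'' h3 _ hB0 (by positivity)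
        exact mul_lt_mul_of_pos_right h3 h7
      linarith
    calc S.card ≤ (Ico j₀ (j₀ + 2 * B)).card := card_le_card hsub
      _ = 2 * B := by rw [Nat.card_Ico]; omega

/-- the scales of one random integer -/
lemma fq_le (B b : ℕ) (hb : 2 ≤ b) (s : Finset ℤ) (p : ℤ → ℝ) (hp : ∀ x ∈ s, 0 ≤ p x) (J : Finset ℕ) (κ θ : ℝ) :
    ∑ j ∈ J, fq B b j s p κ θ ≤ 2 * B * fp s p κ θ := by
  classical
  unfold fq fp
  rw [sum_comm, mul_sum]
  apply sum_le_sum
  intro x hx
  rw [sum_comm, mul_sum]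
  apply sum_le_sum
  intro y hy
  have hxy := mul_nonneg (hp x hx) (hp y hy)
  by_cases hfar : κ < |((x - y : ℤ) : ℝ) * θ - round (((x - y : ℤ) : ℝ) * θ)|
  · have h1 : ∑ j ∈ J, (if ((b : ℤ) ^ j ≤ B * |x - y| ∧ |x - y| ≤ B * (b : ℤ) ^ j) ∧
        κ < |((x - y : ℤ) : ℝ) * θ - round (((x - y : ℤ) : ℝ) * θ)| then p x * p y else 0) =
        ((J.filter (fun j => (b : ℤ) ^ j ≤ B * |x - y| ∧ |x - y| ≤ B * (b : ℤ) ^ j)).card : ℝ) * (p x * p y) := by
      have h0 : ∑ j ∈ J.filter (fun j => (b : ℤ) ^ j ≤ B * |x - y| ∧ |x - y| ≤ B * (b : ℤ) ^ j), p x * p y =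
          ((J.filter (fun j => (b : ℤ) ^ j ≤ B * |x - y| ∧ |x - y| ≤ B * (b : ℤ) ^ j)).card : ℝ) * (p x * p y) := by
        rw [sum_const, nsmul_eq_mul]
      rw [← h0, sum_filter]
      apply sum_congr rfl
      intro j _
      by_cases h : (b : ℤ) ^ j ≤ B * |x - y| ∧ |x - y| ≤ B * (b : ℤ) ^ j
      · rw [if_pos ⟨h, hfar⟩, if_pos h]
      · rw [if_neg (fun h' => h h'.1), if_neg h]
    rw [h1, if_pos hfar]
    apply mul_le_mul_of_nonneg_right _ hxy
    have h2 := overlap B b hb J (x - y)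
    have h3 : (((J.filter (fun j => (b : ℤ) ^ j ≤ B * |x - y| ∧ |x - y| ≤ B * (b : ℤ) ^ j)).card : ℕ) : ℝ) ≤ ((2 * B : ℕ) : ℝ) := by
      exact_mod_cast h2
    push_cast at h3
    exact h3
  · rw [if_neg hfar, mul_zero]
    apply le_of_eq
    apply sum_eq_zero
    intro j _
    rw [if_neg (fun h' => hfar h'.2)]

open Classical in
/-- a difference of the scale `j` that is far for few frequencies -/
lemma pick (B b j : ℕ) (s : Finset ℤ) (p : ℤ → ℝ) (η κ : ℝ) (hη : 0 < η)
    (hp : ∀ x ∈ s, 0 ≤ p x) (hprob : η ≤ scp B b j s p) (T : Finset ℕ) (θ : ℕ → ℝ) :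
    ∃ d : ℕ, b ^ j ≤ B * d ∧ d ≤ B * b ^ j ∧
      η * ((T.filter (fun t => κ < |(d : ℝ) * θ t - round ((d : ℝ) * θ t)|)).card : ℝ) ≤ ∑ t ∈ T, fq B b j s p κ (θ t) := by
  obtain ⟨Q, hQ⟩ : ∃ Q : Finset (ℤ × ℤ), Q = (s ×ˢ s).filter (fun z => (b : ℤ) ^ j ≤ B * |z.1 - z.2| ∧ |z.1 - z.2| ≤ B * (b : ℤ) ^ j) :=
    ⟨_, rfl⟩
  have hprob' : η ≤ ∑ z ∈ Q, p z.1 * p z.2 := by
    refine hprob.trans (le_of_eq ?_)
    unfold scp
    rw [hQ, sum_filter, sum_product]
  have hne : Q.Nonempty := by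
    rw [nonempty_iff_ne_empty]
    intro h
    rw [h, sum_empty] at hprob'
    linarith
  obtain ⟨F, hF⟩ : ∃ F : ℤ × ℤ → ℕ, F = fun z => (T.filter (fun t => κ < |((z.1 - z.2 : ℤ) : ℝ) * θ t - round (((z.1 - z.2 : ℤ) : ℝ) * θ t)|)).card :=
    ⟨_, rfl⟩
  obtain ⟨z₀, hz₀, hmin⟩ := exists_min_image Q F hne
  have hz₀' := hz₀
  rw [hQ, mem_filter, mem_product] at hz₀'
  refine ⟨(z₀.1 - z₀.2).natAbs, ?_, ?_, ?_⟩
  · have h1 : (b : ℤ) ^ j ≤ B * ((z₀.1 - z₀.2).natAbs : ℤ) := by
      rw [Int.natCast_natAbs]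
      exact hz₀'.2.1
    exact_mod_cast h1
  · have h1 : ((z₀.1 - z₀.2).natAbs : ℤ) ≤ B * (b : ℤ) ^ j := by
      rw [Int.natCast_natAbs]
      exact hz₀'.2.2
    exact_mod_cast h1
  · simp only [rd_natAbs]
    have hpQ : ∀ z ∈ Q, 0 ≤ p z.1 * p z.2 := by
      intro z hz
      rw [hQ, mem_filter, mem_product] at hz
      exact mul_nonneg (hp _ hz.1.1) (hp _ hz.1.2)
    have hmin' : ∀ z ∈ Q, (F z₀ : ℝ) ≤ F z := by
      intro z hz
      exact_mod_cast hmin z hz
    have hFz : ((T.filter (fun t => κ < |((z₀.1 - z₀.2 : ℤ) : ℝ) * θ t - round (((z₀.1 - z₀.2 : ℤ) : ℝ) * θ t)|)).card : ℝ) = F z₀ := by rw [hF]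
    rw [hFz]
    calc η * (F z₀ : ℝ) ≤ (∑ z ∈ Q, p z.1 * p z.2) * F z₀ := mul_le_mul_of_nonneg_right hprob' (Nat.cast_nonneg _)
      _ = ∑ z ∈ Q, p z.1 * p z.2 * F z₀ := by rw [sum_mul]
      _ ≤ ∑ z ∈ Q, p z.1 * p z.2 * F z := sum_le_sum fun z hz => mul_le_mul_of_nonneg_left (hmin' z hz) (hpQ z hz)
      _ = ∑ t ∈ T, fq B b j s p κ (θ t) := by
          unfold fq
          rw [sum_comm' (t' := s) (s' := fun _ => T) (h := by intro x y; tauto)]
          rw [hQ, sum_filter, sum_product]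
          apply sum_congr rfl
          intro x _
          rw [sum_comm]
          apply sum_congr rfl
          intro y _
          rw [hF]
          simp only
          by_cases h : (b : ℤ) ^ j ≤ B * |x - y| ∧ |x - y| ≤ B * (b : ℤ) ^ j
          · rw [if_pos h]
            have e1 : ∀ t, (if ((b : ℤ) ^ j ≤ B * |x - y| ∧ |x - y| ≤ B * (b : ℤ) ^ j) ∧
                κ < |((x - y : ℤ) : ℝ) * θ t - round (((x - y : ℤ) : ℝ) * θ t)| then p x * p y else 0) =
                if κ < |((x - y : ℤ) : ℝ) * θ t - round (((x - y : ℤ) : ℝ) * θ t)| then p x * p y else 0 := by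
              intro t
              by_cases h2 : κ < |((x - y : ℤ) : ℝ) * θ t - round (((x - y : ℤ) : ℝ) * θ t)|
              · rw [if_pos ⟨h, h2⟩, if_pos h2]
              · rw [if_neg (fun h' => h2 h'.2), if_neg h2]
            simp only [e1]
            rw [← sum_filter, sum_const, nsmul_eq_mul]
            ring
          · rw [if_neg h]
            symm
            apply sum_eq_zero
            intro t _
            rw [if_neg (fun h' => h h'.1)]

lemma fp_nonneg (s : Finset ℤ) (p : ℤ → ℝ) (hp : ∀ x ∈ s, 0 ≤ p x) (κ θ : ℝ) : 0 ≤ fp s p κ θ := by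
  unfold fp
  apply sum_nonneg
  intro x hx
  apply sum_nonneg
  intro y hy
  split_ifs
  · exact mul_nonneg (hp x hx) (hp y hy)
  · exact le_rfl

lemma fq_nonneg (B b j : ℕ) (s : Finset ℤ) (p : ℤ → ℝ) (hp : ∀ x ∈ s, 0 ≤ p x) (κ θ : ℝ) : 0 ≤ fq B b j s p κ θ := by
  unfold fq
  apply sum_nonneg
  intro x hx
  apply sum_nonneg
  intro y hy
  split_ifs
  · exact mul_nonneg (hp x hx) (hp y hy)
  · exact le_rfl

open Classical in
/-- the large spectrum of the multiples of a sum of independent random integers -/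
lemma sum_law (b B E c V n K ℓ : ℕ) (hb : 2 ≤ b) (hB : 1 ≤ B) (hK : 2 ≤ K) (κ ε c₀ c₁ η : ℝ) (hκ0 : 0 < κ) (hε : 0 < ε) (hη : 0 < η)
    (hc₁ : (V : ℝ) * B / (κ ^ 2 * η) ≤ c₁) (m : ℤ) (hm1 : b ^ ℓ ≤ m.natAbs) (hm2 : m.natAbs ≤ b ^ (ℓ + 1)) (J : Finset ℕ)
    (s : ℕ → Finset ℤ) (p : ℕ → ℤ → ℝ) (hp : ∀ i < n, ∀ x ∈ s i, 0 ≤ p i x) (hs : ∀ i < n, ∑ x ∈ s i, p i x = 1)
    (hscale : ∀ j ∈ J, ∃ i < n, η ≤ scp B b j (s i) (p i))
    (hDense : Dense E c₀ K (J.image (fun j => j + ℓ))) (C : ℤ)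
    (hthin : ∀ J : Finset ℕ, Dense E c₀ K J → ∀ S : Finset ℕ, (∀ t ∈ S, t < b ^ (K + 1)) →
      (∀ T ⊆ S, ∃ d : ℕ → ℕ, (∀ j ∈ J, b ^ j ≤ (B * b) * d j ∧ d j ≤ (B * b) * b ^ j) ∧ ∃ T' ⊆ T, T.card ≤ 2 * T'.card ∧
        ∀ t ∈ T', FewFar κ ε c₁ K J d (fun t : ℕ => (t : ℝ) / ((b ^ (K + 1) : ℕ) : ℝ)) t) →
      Thin b E (K ^ c) K (2 * K / 5) S) :
    TLaw b E c V K (Fintype.piFinset (fun i : Fin n => s i)) (fun ω => ∏ i : Fin n, p i (ω i))
      (fun ω => C + m * ∑ i : Fin n, ω i) := by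
  have hKr : (2 : ℝ) ≤ K := by exact_mod_cast hK
  have hK0 : (0 : ℝ) < K := by linarith
  have hlogK : 0 < Real.log K := Real.log_pos (by linarith)
  have hBr : (1 : ℝ) ≤ B := by exact_mod_cast hB
  refine ⟨?_, ?_, ?_⟩
  · intro ω hω
    rw [Fintype.mem_piFinset] at hω
    exact prod_nonneg fun j _ => hp j j.2 _ (hω j)
  · apply le_of_eq
    rw [← Finset.prod_univ_sum (fun j : Fin n => s j) (fun j x => p j x)]
    exact prod_eq_one fun j _ => hs j j.2
  · apply hthin (J.image (fun j => j + ℓ)) hDense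
    · intro t ht
      unfold Spec at ht
      rw [mem_filter, mem_range] at ht
      exact ht.1
    · intro T hT
      obtain ⟨θ, hθ⟩ : ∃ θ : ℕ → ℝ, θ = fun t : ℕ => (t : ℝ) / ((b ^ (K + 1) : ℕ) : ℝ) := ⟨_, rfl⟩
      rw [← hθ]
      obtain ⟨ϑ, hϑ⟩ : ∃ ϑ : ℕ → ℝ, ϑ = fun t : ℕ => (m : ℝ) * θ t := ⟨_, rfl⟩
      have hfar : ∀ t ∈ T, ∑ i ∈ range n, fp (s i) (p i) κ (ϑ t) ≤ V * Real.log K / (4 * κ ^ 2) := by
        intro t ht
        have htS := hT ht
        unfold Spec at htS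
        rw [mem_filter, mem_range] at htS
        have hθt : (t : ℝ) / ((b ^ (K + 1) : ℕ) : ℝ) = θ t := by rw [hθ]
        rw [hθt] at htS
        have e0 : ∑ ω ∈ Fintype.piFinset (fun i : Fin n => s i), (((∏ i : Fin n, p i (ω i) : ℝ)) : ℂ) *
            ee (((C + m * ∑ i : Fin n, ω i : ℤ) : ℝ) * θ t) = ee ((C : ℝ) * θ t) *
            ∑ ω ∈ Fintype.piFinset (fun i : Fin n => s i), (((∏ i : Fin n, p i (ω i) : ℝ)) : ℂ) *
            ee (((0 + ∑ i : Fin n, ω i : ℤ) : ℝ) * ϑ t) := by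
          rw [mul_sum]
          apply sum_congr rfl
          intro ω _
          have e1 : ((C + m * ∑ i : Fin n, ω i : ℤ) : ℝ) * θ t = (C : ℝ) * θ t + ((0 + ∑ i : Fin n, ω i : ℤ) : ℝ) * ϑ t := by
            rw [hϑ]
            push_cast
            ring
          rw [e1, ee_add]
          ring
        have h0 := htS.2
        rw [e0, norm_mul, norm_ee, one_mul] at h0
        have h1 := h0.trans_le (char_all n s p hp hs 0 (ϑ t) κ hκ0.le)
        have h3 : (1 : ℝ) / (K : ℝ) ^ V = Real.exp (-(V * Real.log K)) := by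
          rw [Real.exp_neg, Real.exp_nat_mul, Real.exp_log hK0, one_div]
        rw [h3, Real.exp_lt_exp, neg_lt_neg_iff] at h1
        rw [le_div_iff₀ (by positivity)]
        linarith
      have hpick : ∀ j, ∃ (i : ℕ) (d : ℕ), j ∈ J → (i < n ∧ b ^ j ≤ B * d ∧ d ≤ B * b ^ j ∧
          η * ((T.filter (fun t => κ < |(d : ℝ) * ϑ t - round ((d : ℝ) * ϑ t)|)).card : ℝ) ≤ ∑ t ∈ T, fq B b j (s i) (p i) κ (ϑ t)) := by
        intro j
        by_cases hj : j ∈ J
        · obtain ⟨i, hi, hij⟩ := hscale j hj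
          obtain ⟨d, hd⟩ := pick B b j (s i) (p i) η κ hη (hp i hi) hij T ϑ
          exact ⟨i, d, fun _ => ⟨hi, hd⟩⟩
        · exact ⟨0, 0, fun h => absurd h hj⟩
      choose ix d hd using hpick
      obtain ⟨d', hd'⟩ : ∃ d' : ℕ → ℕ, d' = fun j => m.natAbs * d (j - ℓ) := ⟨_, rfl⟩
      have hfareq : ∀ (j : ℕ) (t : ℕ), Far κ d' θ (j + ℓ) t ↔ κ < |(d j : ℝ) * ϑ t - round ((d j : ℝ) * ϑ t)| := by
        intro j t
        unfold Far
        rw [hd']
        simp only [Nat.add_sub_cancel]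
        have e1 : (m.natAbs * d j : ℕ) = (m * (d j : ℤ)).natAbs := by
          rw [Int.natAbs_mul, Int.natAbs_natCast]
        rw [e1, rd_natAbs]
        have e2 : ((m * (d j : ℤ) : ℤ) : ℝ) * θ t = (d j : ℝ) * ϑ t := by
          rw [hϑ]
          push_cast
          ring
        rw [e2]
      refine ⟨d', ?_, ?_⟩
      · intro j hj
        rw [mem_image] at hj
        obtain ⟨j₁, hj₁, rfl⟩ := hj
        obtain ⟨_, g1, g2, _⟩ := hd j₁ hj₁
        rw [hd']
        simp only [Nat.add_sub_cancel]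
        constructor
        · calc b ^ (j₁ + ℓ) = b ^ ℓ * b ^ j₁ := by rw [pow_add, mul_comm]
            _ ≤ m.natAbs * (B * d j₁) := Nat.mul_le_mul hm1 g1
            _ = B * (m.natAbs * d j₁) := by ring
            _ ≤ B * b * (m.natAbs * d j₁) := Nat.mul_le_mul_right _ (Nat.le_mul_of_pos_right _ (by omega))
        · calc m.natAbs * d j₁ ≤ b ^ (ℓ + 1) * (B * b ^ j₁) := Nat.mul_le_mul hm2 g2
            _ = B * b * b ^ (j₁ + ℓ) := by rw [pow_add, pow_add, pow_one]; ring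
      -- most frequencies have few far differences
      obtain ⟨R, hR⟩ : ∃ R : ℝ, R = 2 * B * (V * Real.log K / (4 * κ ^ 2)) / η := ⟨_, rfl⟩
      have hR0 : 0 ≤ R := by rw [hR]; positivity
      obtain ⟨nf, hnf⟩ : ∃ nf : ℕ → ℕ, nf = fun t => (J.filter (fun j => κ < |(d j : ℝ) * ϑ t - round ((d j : ℝ) * ϑ t)|)).card := ⟨_, rfl⟩
      have hone : ∀ t, ∑ j ∈ J, fq B b j (s (ix j)) (p (ix j)) κ (ϑ t) ≤ 2 * B * ∑ i ∈ range n, fp (s i) (p i) κ (ϑ t) := by
        intro t
        rw [← sum_fiberwise_of_maps_to (s := J) (t := range n) (g := ix) (fun j hj => mem_range.2 (hd j hj).1), mul_sum]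
        apply sum_le_sum
        intro i hi
        rw [mem_range] at hi
        refine le_trans (le_of_eq ?_) (fq_le B b hb (s i) (p i) (hp i hi) (J.filter (fun j => ix j = i)) κ (ϑ t))
        apply sum_congr rfl
        intro j hj
        rw [(mem_filter.1 hj).2]
      have htot : ∑ t ∈ T, (nf t : ℝ) ≤ T.card * R := by
        have h1 : ∑ t ∈ T, (nf t : ℝ) = ∑ j ∈ J, ((T.filter (fun t => κ < |(d j : ℝ) * ϑ t - round ((d j : ℝ) * ϑ t)|)).card : ℝ) := by
          rw [hnf]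
          simp only [card_filter]
          push_cast
          exact sum_comm
        have h2 : η * ∑ j ∈ J, ((T.filter (fun t => κ < |(d j : ℝ) * ϑ t - round ((d j : ℝ) * ϑ t)|)).card : ℝ) ≤
            ∑ t ∈ T, ∑ j ∈ J, fq B b j (s (ix j)) (p (ix j)) κ (ϑ t) := by
          rw [mul_sum, sum_comm]
          exact sum_le_sum fun j hj => (hd j hj).2.2.2
        have h3 : ∑ t ∈ T, ∑ j ∈ J, fq B b j (s (ix j)) (p (ix j)) κ (ϑ t) ≤ T.card * (2 * B * (V * Real.log K / (4 * κ ^ 2))) := by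
          calc ∑ t ∈ T, ∑ j ∈ J, fq B b j (s (ix j)) (p (ix j)) κ (ϑ t)
              ≤ ∑ t ∈ T, 2 * B * (V * Real.log K / (4 * κ ^ 2)) := by
                apply sum_le_sum
                intro t ht
                exact (hone t).trans (mul_le_mul_of_nonneg_left (hfar t ht) (by positivity))
            _ = _ := by rw [sum_const, nsmul_eq_mul]
        have h4 : η * ∑ t ∈ T, (nf t : ℝ) ≤ η * (T.card * R) := by
          rw [h1]
          refine h2.trans (h3.trans (le_of_eq ?_))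
          rw [hR]
          field_simp
        exact le_of_mul_le_mul_left h4 hη
      refine ⟨T.filter (fun t => (nf t : ℝ) ≤ 2 * R), filter_subset _ _, ?_, ?_⟩
      · -- at least half
        rcases T.eq_empty_or_nonempty with h0 | h0
        · rw [h0]; simp
        by_contra hcon
        push Not at hcon
        have h1 : T.card < 2 * (T.filter (fun t => ¬ (nf t : ℝ) ≤ 2 * R)).card := by
          have := card_filter_add_card_filter_not (s := T) (fun t => (nf t : ℝ) ≤ 2 * R)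
          omega
        have h2 : ((T.filter (fun t => ¬ (nf t : ℝ) ≤ 2 * R)).card : ℝ) * (2 * R) ≤ T.card * R := by
          refine le_trans ?_ htot
          rw [← nsmul_eq_mul, ← sum_const]
          refine le_trans (sum_le_sum (g := fun t => (nf t : ℝ)) ?_) ?_
          · intro t ht
            have := (mem_filter.1 ht).2
            push Not at this
            exact this.le
          · exact sum_le_sum_of_subset_of_nonneg (filter_subset _ _) fun _ _ _ => Nat.cast_nonneg _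
        rcases hR0.lt_or_eq with h3 | h3
        · have h4 : (T.card : ℝ) < 2 * ((T.filter (fun t => ¬ (nf t : ℝ) ≤ 2 * R)).card : ℝ) := by exact_mod_cast h1
          nlinarith
        · have h5 : ∀ t ∈ T, (nf t : ℝ) ≤ 2 * R := by
            intro t ht
            have h6 : ∑ t ∈ T, (nf t : ℝ) ≤ 0 := by rw [← h3, mul_zero] at htot; exact htot
            have h7 : (nf t : ℝ) ≤ ∑ t ∈ T, (nf t : ℝ) := single_le_sum (f := fun t => (nf t : ℝ)) (fun _ _ => Nat.cast_nonneg _) ht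
            rw [← h3]
            linarith
          have h6 : T.filter (fun t => ¬ (nf t : ℝ) ≤ 2 * R) = ∅ := by
            rw [filter_eq_empty_iff]
            intro t ht
            exact not_not.2 (h5 t ht)
          rw [h6, card_empty] at h1
          omega
      · intro t ht
        have ht2 := (mem_filter.1 ht).2
        have h1 : ∀ (w : ℕ) (P : ℕ → Prop) [DecidablePred P],
            (((J.image (fun j => j + ℓ)).filter (fun i => P i ∧ Far κ d' θ i t)).card : ℝ) ≤ ε * w + c₁ * Real.log K := by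
          intro w P _
          have h2 : (((J.image (fun j => j + ℓ)).filter (fun i => P i ∧ Far κ d' θ i t)).card : ℝ) ≤ nf t := by
            rw [hnf]
            have : ((J.image (fun j => j + ℓ)).filter (fun i => P i ∧ Far κ d' θ i t)).card ≤
                (J.filter (fun j => κ < |(d j : ℝ) * ϑ t - round ((d j : ℝ) * ϑ t)|)).card := by
              refine le_trans (card_le_card (t := (J.filter (fun j => κ < |(d j : ℝ) * ϑ t - round ((d j : ℝ) * ϑ t)|)).image (fun j => j + ℓ)) ?_)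
                card_image_le
              intro i hi
              rw [mem_filter, mem_image] at hi
              obtain ⟨⟨j, hj, rfl⟩, _, hi2⟩ := hi
              rw [mem_image]
              exact ⟨j, mem_filter.2 ⟨hj, (hfareq j t).1 hi2⟩, rfl⟩
            exact_mod_cast this
          have h3 : 2 * R ≤ c₁ * Real.log K := by
            refine le_trans (le_of_eq ?_) (mul_le_mul_of_nonneg_right hc₁ hlogK.le)
            rw [hR]
            field_simp
            ring
          have h4 : 0 ≤ ε * w := by positivity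
          linarith
        constructor
        · intro w _
          have h2 := h1 w (fun i => 0 ≤ i ∧ i < w)
          refine le_trans (le_of_eq ?_) h2
          congr 2
          ext j
          rw [mem_filter, mem_filter, and_assoc]
        · intro w _
          have h2 := h1 w (fun i => K + 1 - w ≤ i ∧ i < K + 1)
          refine le_trans (le_of_eq ?_) h2
          congr 2
          ext j
          rw [mem_filter, mem_filter, and_assoc]

end Pool.Agent.HP84.RS
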