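import Pool.Agent.HP84.RS.Rich
import Pool.Agent.Y885.LD3
import Pool.Agent.Y885.TU4

set_option autoImplicit false

/-! The level of distribution near the sums of independent random integers which serve a rich set of scales. -/

namespace Pool.Agent.HP84.RS
open Finset
open Pool.Agent.W93.LV
open Pool.Agent.TH212.EH (W WW)
open Pool.Agent.Y885 (Rich TLaw tl_levels pow_le_two_pow')

/-- near the sums of independent random integers the primes have level `N / exp (C log ^ 2 k)` -/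
theorem any_levels (B D T U V₀ : ℕ) (hB : 1 ≤ B) (η δ : ℝ) (hη : 0 < η) (hδ : 0 < δ) :
    ∃ Dl k₀ : ℕ, ∀ k : ℕ, k₀ ≤ k → ∀ (J : Finset ℕ) (n : ℕ) (s : ℕ → Finset ℤ) (p : ℕ → ℤ → ℝ), Rich δ D k J →
    (∀ i < n, ∀ x ∈ s i, 0 ≤ p i x) → (∀ i < n, ∑ x ∈ s i, p i x = 1) →
    (∀ j ∈ J, ∃ i < n, η ≤ scp B 2 j (s i) (p i)) →
    ∀ N : ℕ, 2 ^ k ≤ B * N → N ≤ B * 2 ^ k →
    (∀ ω ∈ Fintype.piFinset (fun i : Fin n => s i), |∑ i : Fin n, ω i| ≤ (B : ℤ) * N) →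
    ∀ Q : ℕ, (Q : ℝ) * Real.exp ((Dl : ℝ) * Real.log k ^ 2) ≤ N →
    (∀ L : ℕ, L ≤ k ^ T → ∀ (lam : Fin L → ℕ → ℝ) (x : Fin L → ℕ → ℕ), (∀ l q, |lam l q| ≤ ((q.divisors.card : ℝ) * k) ^ T) →
      (∀ l q, x l q ≤ B * N) → ∀ bad : (Fin n → ℤ) → Prop, ∀ _hdec : DecidablePred bad,
      (∀ ω, bad ω → ∃ a : ℕ, 0 < a ∧ |(a : ℤ) - ∑ i : Fin n, ω i| ≤ (k : ℤ) ^ V₀ ∧ ∃ l,
        ((N : ℝ) / (k : ℝ) ^ U < |WW (lam l) (x l) Q a| ∨ ∃ y ≤ B * N, (N : ℝ) / (k : ℝ) ^ U < |W (lam l) Q y a|)) →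
      ∑ ω ∈ Fintype.piFinset (fun i : Fin n => s i), (if bad ω then ∏ i : Fin n, p i (ω i) else 0) ≤ 1 / (k : ℝ) ^ U) ∧
    (∀ w : (Fin n → ℤ) → ℝ, (∀ ω, |w ω| ≤ (k : ℝ) ^ T) → ∀ x : ℕ → ℕ, (∀ q, x q ≤ B * N) → ∀ c : ℤ, |c| ≤ (k : ℤ) ^ V₀ →
      ∀ _h : ∀ q, DecidablePred fun ω : Fin n → ℤ => 0 < c + ∑ i, ω i ∧ (c + ∑ i, ω i).toNat.Coprime q,
      ∑ q ∈ Icc 1 Q, (q.divisors.card : ℝ) ^ T * |∑ ω ∈ (Fintype.piFinset (fun i : Fin n => s i)).filter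
        (fun ω => 0 < c + ∑ i, ω i ∧ (c + ∑ i, ω i).toNat.Coprime q), (∏ i : Fin n, p i (ω i)) * (w ω *
        (Fu (fun n => ArithmeticFunction.vonMangoldt n) (x q) q (c + ∑ i, ω i).toNat - (x q : ℝ) / Nat.totient q))| ≤ N / (k : ℝ) ^ U) := by
  classical
  obtain ⟨E, hE, hEδ⟩ := exists_E δ hδ
  obtain ⟨e, he⟩ : ∃ e, e = 2 * B + 2 := ⟨_, rfl⟩
  obtain ⟨U', hU'⟩ : ∃ U', U' = U + (V₀ + T + 3) + 1 := ⟨_, rfl⟩
  obtain ⟨V, hV⟩ := tl_levels T U'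
  obtain ⟨c₁, k₁, h1⟩ := any_law_E 2 le_rfl B D hB η δ hη E hE hEδ e V
  obtain ⟨D₀, k₂, h2⟩ := hV 2 E (2 ^ e) c₁ le_rfl hE (Nat.one_le_pow _ _ (by omega))
  obtain ⟨k₃, h3⟩ := pow_le_two_pow' (V₀ + 1)
  refine ⟨4 * D₀, k₁ + k₂ + k₃ + e + 2 * B + 3, fun k hk J n s p hR hp hs hscale N hN1 hN2 hsum Q hQ => ?_⟩
  have hk3 : (3 : ℝ) ≤ k := by exact_mod_cast (by omega : 3 ≤ k)
  have hk2 : (2 : ℝ) ≤ k := by linarith
  have hk0 : (0 : ℝ) < k := by linarith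
  have hk1 : (1 : ℝ) ≤ k := by linarith
  have hlogk : 1 ≤ Real.log k := by
    rw [Real.le_log_iff_exp_le hk0]
    have := Real.exp_one_lt_d9
    linarith
  have hbk : 0 < 2 ^ k := Nat.pow_pos (by omega)
  have hN0 : 0 < N := by
    rcases Nat.eq_zero_or_pos N with h | h
    · rw [h, mul_zero] at hN1
      omega
    · exact h
  have hBe : 4 * ((B + 1) * B) ≤ 2 ^ e := by
    have e1 : B + 1 ≤ 2 ^ B := Nat.lt_two_pow_self
    have e2 : (B + 1) * B ≤ 2 ^ B * 2 ^ B := Nat.mul_le_mul e1 (by omega)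
    have e3 : 2 ^ e = 4 * (2 ^ B * 2 ^ B) := by
      rw [he, pow_add, two_mul, pow_add]
      ring
    rw [e3]
    exact Nat.mul_le_mul_left _ e2
  obtain ⟨X, hX⟩ : ∃ X, X = (B + 1) * N := ⟨_, rfl⟩
  have hX4 : 4 * X ≤ 2 ^ (k + e) := by
    rw [hX, pow_add]
    calc 4 * ((B + 1) * N) ≤ 4 * ((B + 1) * (B * 2 ^ k)) := Nat.mul_le_mul_left _ (Nat.mul_le_mul_left _ hN2)
      _ = 2 ^ k * (4 * ((B + 1) * B)) := by ring
      _ ≤ 2 ^ k * 2 ^ e := Nat.mul_le_mul_left _ hBe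
  have hBNX : B * N ≤ X := by rw [hX]; exact Nat.mul_le_mul_right _ (by omega)
  have hX5 : 2 ^ (k + e) ≤ 2 ^ e * X := by
    rw [pow_add, mul_comm (2 ^ k)]
    exact Nat.mul_le_mul_left _ (hN1.trans hBNX)
  have hNX : N ≤ X := by rw [hX]; exact Nat.le_mul_of_pos_left _ (by omega)
  have hkN : k ^ V₀ ≤ N := by
    have e1 : k ^ (V₀ + 1) ≤ 2 ^ k := h3 k (by omega)
    have e2 : k ^ V₀ * B ≤ N * B := by
      calc k ^ V₀ * B ≤ k ^ V₀ * k := Nat.mul_le_mul_left _ (by omega)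
        _ = k ^ (V₀ + 1) := (pow_succ _ _).symm
        _ ≤ B * N := e1.trans hN1
        _ = N * B := mul_comm _ _
    exact Nat.le_of_mul_le_mul_right e2 (by omega)
  have hY : ∀ c : ℤ, |c| ≤ (k : ℤ) ^ V₀ → ∀ ω ∈ Fintype.piFinset (fun i : Fin n => s i), |c + 1 * ∑ i : Fin n, ω i| ≤ X := by
    intro c hc ω hω
    have g1 := hsum ω hω
    have g2 := abs_add_le c (1 * ∑ i : Fin n, ω i)
    rw [one_mul] at g2 ⊢
    have g3 : ((k : ℤ) ^ V₀) ≤ N := by exact_mod_cast hkN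
    rw [hX]
    push_cast
    linarith
  -- the level
  have hK : ((k + e : ℕ) : ℝ) ≤ k ^ 2 := by
    have e1 : ((k + e : ℕ) : ℝ) ≤ 2 * k := by exact_mod_cast (by omega : k + e ≤ 2 * k)
    nlinarith
  have hK0 : (0 : ℝ) < ((k + e : ℕ) : ℝ) := by exact_mod_cast (by omega : 0 < k + e)
  have hlogK : Real.log ((k + e : ℕ) : ℝ) ^ 2 ≤ 4 * Real.log k ^ 2 := by
    have e1 := Real.log_le_log hK0 hK
    rw [Real.log_pow] at e1
    push_cast at e1
    have e2 : 0 ≤ Real.log ((k : ℝ) + e) := by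
      have := Real.log_natCast_nonneg (k + e)
      push_cast at this
      exact this
    push_cast
    calc Real.log ((k : ℝ) + e) ^ 2 ≤ (2 * Real.log k) ^ 2 := pow_le_pow_left₀ e2 e1 2
      _ = _ := by ring
  have hQ' : (Q : ℝ) * Real.exp ((D₀ : ℝ) * Real.log ((k + e : ℕ) : ℝ) ^ 2) ≤ X := by
    calc (Q : ℝ) * Real.exp ((D₀ : ℝ) * Real.log ((k + e : ℕ) : ℝ) ^ 2) ≤ Q * Real.exp (((4 * D₀ : ℕ) : ℝ) * Real.log k ^ 2) := by
          apply mul_le_mul_of_nonneg_left _ (Nat.cast_nonneg _)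
          apply Real.exp_le_exp.2
          push_cast
          have hD0 : (0 : ℝ) ≤ D₀ := Nat.cast_nonneg _
          have := mul_le_mul_of_nonneg_left hlogK hD0
          push_cast at this
          linarith
      _ ≤ N := hQ
      _ ≤ X := by exact_mod_cast hNX
  have hkK : (k : ℝ) ≤ ((k + e : ℕ) : ℝ) := by exact_mod_cast (by omega : k ≤ k + e)
  have hXU : (X : ℝ) / ((k + e : ℕ) : ℝ) ^ U' ≤ N / (k : ℝ) ^ U := by
    have e1 : (X : ℝ) ≤ ((k + e : ℕ) : ℝ) * N := by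
      have : X ≤ (k + e) * N := by rw [hX]; exact Nat.mul_le_mul_right _ (by omega)
      exact_mod_cast this
    have e2 : (k : ℝ) ^ U ≤ ((k + e : ℕ) : ℝ) ^ (U + (V₀ + T + 3)) :=
      (pow_le_pow_left₀ hk0.le hkK _).trans (pow_le_pow_right₀ (by linarith) (by omega))
    rw [div_le_div_iff₀ (by positivity) (by positivity)]
    calc (X : ℝ) * (k : ℝ) ^ U ≤ (((k + e : ℕ) : ℝ) * N) * ((k + e : ℕ) : ℝ) ^ (U + (V₀ + T + 3)) :=
          mul_le_mul e1 e2 (by positivity) (by positivity)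
      _ = N * ((k + e : ℕ) : ℝ) ^ U' := by rw [hU', pow_succ _ (U + (V₀ + T + 3))]; ring
  have hPU : 1 / ((k + e : ℕ) : ℝ) ^ U' ≤ 1 / (k : ℝ) ^ (U + (V₀ + T + 3)) := by
    apply one_div_le_one_div_of_le (by positivity)
    exact (pow_le_pow_left₀ hk0.le hkK _).trans (pow_le_pow_right₀ (by linarith) (by omega))
  have hkT : (k : ℝ) ^ T ≤ ((k + e : ℕ) : ℝ) ^ T := pow_le_pow_left₀ hk0.le hkK _
  have hlaw : ∀ c : ℤ, TLaw 2 E c₁ V (k + e) (Fintype.piFinset (fun i : Fin n => s i)) (fun ω => ∏ i : Fin n, p i (ω i))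
      (fun ω => c + 1 * ∑ i : Fin n, ω i) := by
    intro c
    refine h1 k (by omega) e ?_ 1 0 (by norm_num) (by norm_num) (by omega) n J s p c hR hp hs hscale
    have : (0 : ℝ) ≤ e := Nat.cast_nonneg _
    nlinarith
  have key : ∀ c : ℤ, |c| ≤ (k : ℤ) ^ V₀ → _ := fun c hc => h2 (k + e) (by omega) (Fin n → ℤ)
    (Fintype.piFinset (fun i : Fin n => s i)) (fun ω => ∏ i : Fin n, p i (ω i)) (fun ω => c + 1 * ∑ i : Fin n, ω i) (hlaw c)
    X hX4 hX5 (hY c hc) Q hQ'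
  constructor
  · intro L hL lam x hlam hx bad hdec hbad
    have hprod : ∀ ω ∈ Fintype.piFinset (fun i : Fin n => s i), 0 ≤ ∏ i : Fin n, p i (ω i) := by
      intro ω hω
      rw [Fintype.mem_piFinset] at hω
      exact prod_nonneg fun i _ => hp i i.2 _ (hω i)
    obtain ⟨I, hI⟩ : ∃ I : Finset (ℤ × Fin L), I = (Icc (-((k : ℤ) ^ V₀)) ((k : ℤ) ^ V₀)) ×ˢ (univ : Finset (Fin L)) := ⟨_, rfl⟩
    have hIcard : (I.card : ℝ) * 2 ≤ (k : ℝ) ^ (V₀ + T + 3) := by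
      have e1 : I.card = (2 * k ^ V₀ + 1) * L := by
        rw [hI, card_product, Int.card_Icc, card_univ, Fintype.card_fin]
        congr 1
        have : (k : ℤ) ^ V₀ + 1 - -((k : ℤ) ^ V₀) = ((2 * k ^ V₀ + 1 : ℕ) : ℤ) := by push_cast; ring
        rw [this, Int.toNat_natCast]
      have e2 : 2 * k ^ V₀ + 1 ≤ k * k ^ V₀ := by
        have : 1 ≤ k ^ V₀ := Nat.one_le_pow _ _ (by omega)
        calc 2 * k ^ V₀ + 1 ≤ 3 * k ^ V₀ := by omega
          _ ≤ k * k ^ V₀ := Nat.mul_le_mul_right _ (by omega)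
      have e3 : I.card * 2 ≤ k ^ (V₀ + T + 3) := by
        rw [e1]
        calc (2 * k ^ V₀ + 1) * L * 2 ≤ (k * k ^ V₀) * k ^ T * k := Nat.mul_le_mul (Nat.mul_le_mul e2 hL) (by omega)
          _ = k ^ (V₀ + T + 2) := by ring
          _ ≤ k ^ (V₀ + T + 3) := Nat.pow_le_pow_right (by omega) (by omega)
      exact_mod_cast e3
    -- the two bad events of one shift and one system
    obtain ⟨b₁, hb₁⟩ : ∃ b₁ : ℤ × Fin L → (Fin n → ℤ) → Prop, ∀ t ω, b₁ t ω ↔ 0 < t.1 + 1 * ∑ i : Fin n, ω i ∧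
      (N : ℝ) / (k : ℝ) ^ U < |WW (lam t.2) (x t.2) Q (t.1 + 1 * ∑ i : Fin n, ω i).toNat| := ⟨fun _ _ => _, fun _ _ => Iff.rfl⟩
    obtain ⟨b₂, hb₂⟩ : ∃ b₂ : ℤ × Fin L → (Fin n → ℤ) → Prop, ∀ t ω, b₂ t ω ↔ 0 < t.1 + 1 * ∑ i : Fin n, ω i ∧
      ∃ y ≤ B * N, (N : ℝ) / (k : ℝ) ^ U < |W (lam t.2) Q y (t.1 + 1 * ∑ i : Fin n, ω i).toNat| := ⟨fun _ _ => _, fun _ _ => Iff.rfl⟩
    have hlam' : ∀ l q, |lam l q| ≤ ((k + e : ℕ) : ℝ) ^ T * (q.divisors.card : ℝ) ^ T := by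
      intro l q
      refine (hlam l q).trans ?_
      rw [mul_pow, mul_comm]
      exact mul_le_mul_of_nonneg_right hkT (by positivity)
    have hc : ∀ t ∈ I, |t.1| ≤ (k : ℤ) ^ V₀ := by
      intro t ht
      rw [hI, mem_product, mem_Icc] at ht
      exact abs_le.2 ht.1
    have s1 : ∀ t ∈ I, ∑ ω ∈ Fintype.piFinset (fun i : Fin n => s i), (if b₁ t ω then ∏ i : Fin n, p i (ω i) else 0) ≤
        1 / (k : ℝ) ^ (U + (V₀ + T + 3)) := by
      intro t ht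
      obtain ⟨r1, _⟩ := key t.1 (hc t ht)
      obtain ⟨_, r4⟩ := r1 (lam t.2) (hlam' t.2)
      refine le_trans (r4 (x t.2) (fun q => (hx t.2 q).trans hBNX) (b₁ t) _ ?_) hPU
      intro ω _ hω
      rw [hb₁] at hω
      exact ⟨hω.1, lt_of_le_of_lt hXU hω.2⟩
    have s2 : ∀ t ∈ I, ∑ ω ∈ Fintype.piFinset (fun i : Fin n => s i), (if b₂ t ω then ∏ i : Fin n, p i (ω i) else 0) ≤
        1 / (k : ℝ) ^ (U + (V₀ + T + 3)) := by
      intro t ht
      obtain ⟨r1, _⟩ := key t.1 (hc t ht)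
      obtain ⟨r3, _⟩ := r1 (lam t.2) (hlam' t.2)
      refine le_trans (r3 (b₂ t) _ ?_) hPU
      intro ω _ hω
      rw [hb₂] at hω
      obtain ⟨g1, y, g2, g3⟩ := hω
      exact ⟨g1, y, g2.trans hBNX, lt_of_le_of_lt hXU g3⟩
    -- the union bound
    have hub : ∑ ω ∈ Fintype.piFinset (fun i : Fin n => s i), (if bad ω then ∏ i : Fin n, p i (ω i) else 0) ≤
        ∑ t ∈ I, (∑ ω ∈ Fintype.piFinset (fun i : Fin n => s i), (if b₁ t ω then ∏ i : Fin n, p i (ω i) else 0) +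
          ∑ ω ∈ Fintype.piFinset (fun i : Fin n => s i), (if b₂ t ω then ∏ i : Fin n, p i (ω i) else 0)) := by
      rw [sum_add_distrib, sum_comm, sum_comm (s := I) (t := Fintype.piFinset (fun i : Fin n => s i)), ← sum_add_distrib]
      refine sum_le_sum fun ω hω => ?_
      have hnn : ∀ (c : Prop) (_ : Decidable c), 0 ≤ (if c then ∏ i : Fin n, p i (ω i) else 0) := by
        intro c _
        split_ifs
        · exact hprod ω hω
        · exact le_rfl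
      by_cases hbω : bad ω
      · rw [if_pos hbω]
        obtain ⟨a, ha0, ha1, l, ha2⟩ := hbad ω hbω
        obtain ⟨t, ht⟩ : ∃ t : ℤ × Fin L, t = ((a : ℤ) - ∑ i : Fin n, ω i, l) := ⟨_, rfl⟩
        have htI : t ∈ I := by
          rw [hI, ht, mem_product, mem_Icc]
          exact ⟨abs_le.1 ha1, mem_univ _⟩
        have hta : t.1 + 1 * ∑ i : Fin n, ω i = a := by rw [ht]; ring
        have ht2 : t.2 = l := by rw [ht]
        rcases ha2 with h | ⟨y, hy, h⟩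
        · have hb : b₁ t ω := by
            rw [hb₁, hta, ht2, Int.toNat_natCast]
            exact ⟨by exact_mod_cast ha0, h⟩
          have g1 := single_le_sum (f := fun t => if b₁ t ω then ∏ i : Fin n, p i (ω i) else 0)
            (fun t _ => hnn (b₁ t ω) _) htI
          have g2 : 0 ≤ ∑ t ∈ I, (if b₂ t ω then ∏ i : Fin n, p i (ω i) else 0) := sum_nonneg fun t _ => hnn (b₂ t ω) _
          simp only [if_pos hb] at g1
          linarith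
        · have hb : b₂ t ω := by
            rw [hb₂, hta, ht2, Int.toNat_natCast]
            exact ⟨by exact_mod_cast ha0, y, hy, h⟩
          have g1 := single_le_sum (f := fun t => if b₂ t ω then ∏ i : Fin n, p i (ω i) else 0)
            (fun t _ => hnn (b₂ t ω) _) htI
          have g2 : 0 ≤ ∑ t ∈ I, (if b₁ t ω then ∏ i : Fin n, p i (ω i) else 0) := sum_nonneg fun t _ => hnn (b₁ t ω) _
          simp only [if_pos hb] at g1
          linarith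
      · rw [if_neg hbω]
        exact add_nonneg (sum_nonneg fun t _ => hnn _ _) (sum_nonneg fun t _ => hnn _ _)
    refine hub.trans ?_
    have hub2 : ∑ t ∈ I, (∑ ω ∈ Fintype.piFinset (fun i : Fin n => s i), (if b₁ t ω then ∏ i : Fin n, p i (ω i) else 0) +
          ∑ ω ∈ Fintype.piFinset (fun i : Fin n => s i), (if b₂ t ω then ∏ i : Fin n, p i (ω i) else 0)) ≤
        ∑ t ∈ I, (1 / (k : ℝ) ^ (U + (V₀ + T + 3)) + 1 / (k : ℝ) ^ (U + (V₀ + T + 3))) :=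
      sum_le_sum fun t ht => add_le_add (s1 t ht) (s2 t ht)
    refine hub2.trans ?_
    rw [sum_const, nsmul_eq_mul]
    have e1 : (k : ℝ) ^ (U + (V₀ + T + 3)) = (k : ℝ) ^ U * (k : ℝ) ^ (V₀ + T + 3) := pow_add _ _ _
    have e2 : (0 : ℝ) < (k : ℝ) ^ U := by positivity
    have e3 : (0 : ℝ) < (k : ℝ) ^ (V₀ + T + 3) := by positivity
    rw [e1]
    have e4 : (I.card : ℝ) * (1 / ((k : ℝ) ^ U * (k : ℝ) ^ (V₀ + T + 3)) + 1 / ((k : ℝ) ^ U * (k : ℝ) ^ (V₀ + T + 3))) =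
        ((I.card : ℝ) * 2) / (k : ℝ) ^ (V₀ + T + 3) * (1 / (k : ℝ) ^ U) := by
      field_simp
      ring
    rw [e4]
    have e5 : ((I.card : ℝ) * 2) / (k : ℝ) ^ (V₀ + T + 3) ≤ 1 := (div_le_one e3).2 hIcard
    calc ((I.card : ℝ) * 2) / (k : ℝ) ^ (V₀ + T + 3) * (1 / (k : ℝ) ^ U) ≤ 1 * (1 / (k : ℝ) ^ U) :=
          mul_le_mul_of_nonneg_right e5 (by positivity)
      _ = _ := one_mul _
  · intro w hw x hx c hc hdec
    obtain ⟨_, r2⟩ := key c hc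
    have := (r2 w (fun ω => (hw ω).trans hkT) x (fun q => (hx q).trans hBNX)
      (fun q ω => Classical.propDecidable _)).trans hXU
    refine le_trans (le_of_eq ?_) this
    refine sum_congr rfl fun q _ => ?_
    congr 2
    simp only [one_mul]

end Pool.Agent.HP84.RS
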