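import Pool.Agent.HP84.RS.Law

set_option autoImplicit false

/-! Independent random integers which serve a rich set of scales. -/

namespace Pool.Agent.HP84.RS
open Finset
open Pool.Agent.Y885 (Dense TLaw Rich thin_of)

lemma dense_shift (δ : ℝ) (D k e E W ℓ : ℕ) (hE : 1 ≤ E) (hEδ2 : 3 / (E : ℝ) ≤ δ) (hk : 3 ≤ k) (he : (e : ℝ) ≤ W * Real.log k)
    (hℓ : ℓ ≤ e) (J : Finset ℕ) (hR : Rich δ D k J) : Dense E (D + 12 * (W + 1)) (k + e) (J.image (fun j => j + ℓ)) := by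
  obtain ⟨hJk, hbot, htop, hall⟩ := hR
  have hEr : (1 : ℝ) ≤ E := by exact_mod_cast hE
  have hE0 : (0 : ℝ) < E := by linarith
  have hE3 : 3 / (E : ℝ) ≤ 3 := by
    rw [div_le_iff₀ hE0]
    linarith
  have hE30 : 0 < 3 / (E : ℝ) := by positivity
  obtain ⟨c₀, hc₀⟩ : ∃ c₀ : ℝ, c₀ = D + 12 * (W + 1) := ⟨_, rfl⟩
  rw [← hc₀]
  obtain ⟨K, hK⟩ : ∃ K, K = k + e := ⟨_, rfl⟩
  rw [← hK]
  have hk3 : (3 : ℝ) ≤ k := by exact_mod_cast hk
  have hkK : (k : ℝ) ≤ K := by exact_mod_cast (by omega : k ≤ K)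
  have hk0 : (0 : ℝ) < k := by linarith
  have hlogk : 1 ≤ Real.log k := by
    rw [Real.le_log_iff_exp_le hk0]
    have := Real.exp_one_lt_d9
    linarith
  have hlogkK : Real.log k ≤ Real.log K := Real.log_le_log hk0 hkK
  have hlogK : 1 ≤ Real.log K := hlogk.trans hlogkK
  have hDlog : (D : ℝ) * Real.log k ≤ D * Real.log K := mul_le_mul_of_nonneg_left hlogkK (Nat.cast_nonneg _)
  have hWlog : (W : ℝ) * Real.log k ≤ W * Real.log K := mul_le_mul_of_nonneg_left hlogkK (Nat.cast_nonneg _)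
  have heK : ((e : ℝ) + 1) ≤ (W + 1) * Real.log K := by linarith
  have hc₀K : (D : ℝ) * Real.log k + 12 * (e + 1) ≤ c₀ * Real.log K := by
    rw [hc₀, add_mul]
    have : (12 : ℝ) * (e + 1) ≤ 12 * (W + 1) * Real.log K := by linarith
    linarith
  have hDk : 0 ≤ (D : ℝ) * Real.log k := by positivity
  have hℓr : (ℓ : ℝ) ≤ e := by exact_mod_cast hℓ
  have he0 : (0 : ℝ) ≤ e := Nat.cast_nonneg _
  -- the counting function of the shifted set
  have hcard : ∀ P : ℕ → Prop, ∀ Q : ℕ → Prop, ∀ _ : DecidablePred P, ∀ _ : DecidablePred Q, (∀ j ∈ J, P (j + ℓ) ↔ Q j) →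
      ((J.image (fun j => j + ℓ)).filter P).card = (J.filter Q).card := by
    intro P Q _ _ h
    have h1 : (J.image (fun j => j + ℓ)).filter P = (J.filter Q).image (fun j => j + ℓ) := by
      ext i
      rw [mem_filter, mem_image, mem_image]
      constructor
      · rintro ⟨⟨j, hj, rfl⟩, hP⟩
        exact ⟨j, mem_filter.2 ⟨hj, (h j hj).1 hP⟩, rfl⟩
      · rintro ⟨j, hj, rfl⟩
        rw [mem_filter] at hj
        exact ⟨⟨j, hj.1, rfl⟩, (h j hj.1).2 hj.2⟩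
    rw [h1, card_image_of_injective _ (fun a b hab => by simpa using hab)]
  have hJall : ∀ m : ℕ, k ≤ m → J.filter (fun j => j < m) = J := by
    intro m hm
    rw [filter_eq_self]
    intro j hj
    have := hJk j hj
    omega
  refine ⟨fun w hw => ?_, fun w hw => ?_, ?_⟩
  · rw [hcard _ (fun j => j < w - ℓ) _ inferInstance (by intro j _; omega)]
    rcases Nat.lt_or_ge k (w - ℓ) with h | h
    · have g1 := hbot k le_rfl
      rw [hJall k le_rfl] at g1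
      rw [hJall (w - ℓ) h.le]
      have g3 : (w : ℝ) ≤ k + (e + 1) := by exact_mod_cast (by omega : w ≤ k + (e + 1))
      have g4 : (1 / 2 + 3 / (E : ℝ)) * w ≤ (1 / 2 + 3 / (E : ℝ)) * (k + (e + 1)) := mul_le_mul_of_nonneg_left g3 (by positivity)
      have g5 : (1 / 2 + 3 / (E : ℝ)) * k ≤ (1 / 2 + δ) * k := mul_le_mul_of_nonneg_right (by linarith) hk0.le
      have g6 : (1 / 2 + 3 / (E : ℝ)) * (e + 1) ≤ 4 * (e + 1) := mul_le_mul_of_nonneg_right (by linarith) (by positivity)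
      linarith
    · have g1 := hbot (w - ℓ) h
      have g3 : (w : ℝ) ≤ ((w - ℓ : ℕ) : ℝ) + ℓ := by exact_mod_cast (by omega : w ≤ (w - ℓ) + ℓ)
      have g4 : (1 / 2 + 3 / (E : ℝ)) * w ≤ (1 / 2 + 3 / (E : ℝ)) * (((w - ℓ : ℕ) : ℝ) + ℓ) := mul_le_mul_of_nonneg_left g3 (by positivity)
      have g5 : (1 / 2 + 3 / (E : ℝ)) * ((w - ℓ : ℕ) : ℝ) ≤ (1 / 2 + δ) * ((w - ℓ : ℕ) : ℝ) :=
        mul_le_mul_of_nonneg_right (by linarith) (Nat.cast_nonneg _)
      have g6 : (1 / 2 + 3 / (E : ℝ)) * ℓ ≤ 4 * ℓ := mul_le_mul_of_nonneg_right (by linarith) (Nat.cast_nonneg _)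
      linarith
  · rw [hcard _ (fun j => k - (w - (e + 1 - ℓ)) ≤ j) _ inferInstance (by
      intro j hj
      have := hJk j hj
      constructor
      · intro h; omega
      · intro h; omega)]
    obtain ⟨m, hm⟩ : ∃ m, m = w - (e + 1 - ℓ) := ⟨_, rfl⟩
    rw [← hm]
    have g3 : (w : ℝ) ≤ m + (e + 1) := by exact_mod_cast (by omega : w ≤ m + (e + 1))
    have g6 : 3 / (E : ℝ) * w ≤ 3 / (E : ℝ) * (m + (e + 1)) := mul_le_mul_of_nonneg_left g3 hE30.le
    have g7 : 3 / (E : ℝ) * (e + 1) ≤ 3 * (e + 1) := mul_le_mul_of_nonneg_right hE3 (by positivity)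
    rcases Nat.lt_or_ge k m with h | h
    · have g1 := htop k le_rfl
      have g2 : J.filter (fun j => k - k ≤ j) = J.filter (fun j => k - m ≤ j) := by
        apply filter_congr
        intro j _
        omega
      rw [g2] at g1
      have g8 : (m : ℝ) ≤ k + (e + 1) := by exact_mod_cast (by omega : m ≤ k + (e + 1))
      have g9 : 3 / (E : ℝ) * m ≤ 3 / (E : ℝ) * (k + (e + 1)) := mul_le_mul_of_nonneg_left g8 hE30.le
      have g5 : 3 / (E : ℝ) * k ≤ δ * k := mul_le_mul_of_nonneg_right hEδ2 (Nat.cast_nonneg _)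
      linarith
    · have g1 := htop m h
      have g5 : 3 / (E : ℝ) * m ≤ δ * m := mul_le_mul_of_nonneg_right hEδ2 (Nat.cast_nonneg _)
      linarith
  · rw [hcard _ (fun _ => True) _ inferInstance (by
      intro j hj
      have := hJk j hj
      constructor
      · intro _; trivial
      · intro _; omega)]
    rw [filter_true_of_mem (fun _ _ => trivial)]
    have g3 : (K : ℝ) = k + e := by rw [hK]; push_cast; ring
    rw [g3, mul_add]
    have g5 : (3 / 5 + 3 / (E : ℝ)) * k ≤ (3 / 5 + δ) * k := mul_le_mul_of_nonneg_right (by linarith) hk0.le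
    have g6 : (3 / 5 + 3 / (E : ℝ)) * e ≤ 4 * e := mul_le_mul_of_nonneg_right (by linarith) (by positivity)
    rw [← g3]
    linarith

open Classical in
/-- the multiples of sums of independent random integers of any size, which serve a rich set of scales, have a thin large
spectrum; the exponent `E` can be any number at least `3 / δ` -/
theorem any_law_E (b : ℕ) (hb : 2 ≤ b) (B D : ℕ) (hB : 1 ≤ B) (η δ : ℝ) (hη : 0 < η) (E : ℕ) (hE : 1 ≤ E) (hEδ : 3 / (E : ℝ) ≤ δ) :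
    ∀ W V : ℕ, ∃ c k₀ : ℕ, ∀ k : ℕ, k₀ ≤ k → ∀ e : ℕ, (e : ℝ) ≤ W * Real.log k →
    ∀ (m : ℤ) (ℓ : ℕ), b ^ ℓ ≤ m.natAbs → m.natAbs ≤ b ^ (ℓ + 1) → ℓ ≤ e →
    ∀ (n : ℕ) (J : Finset ℕ) (s : ℕ → Finset ℤ) (p : ℕ → ℤ → ℝ) (C : ℤ),
    Rich δ D k J →
    (∀ i < n, ∀ x ∈ s i, 0 ≤ p i x) → (∀ i < n, ∑ x ∈ s i, p i x = 1) →
    (∀ j ∈ J, ∃ i < n, η ≤ scp B b j (s i) (p i)) →
    TLaw b E c V (k + e) (Fintype.piFinset (fun i : Fin n => s i)) (fun ω => ∏ i : Fin n, p i (ω i))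
      (fun ω => C + m * ∑ i : Fin n, ω i) := by
  intro W V
  obtain ⟨κ, ε₀, hκ0, hε₀, hκ, hthin⟩ := thin_of b (B * b) E hb (Nat.mul_pos hB (by omega)) hE
  obtain ⟨c₁, K₁, h1⟩ := hthin (D + 12 * (W + 1)) ((V : ℝ) * B / (κ ^ 2 * η))
  refine ⟨c₁, K₁ + 3, fun k hk e he m ℓ hm1 hm2 hℓ n J s p C hR hp hs hscale => ?_⟩
  have hDense := dense_shift δ D k e E W ℓ hE hEδ (by omega) he hℓ J hR
  exact sum_law b B E c₁ V n (k + e) ℓ hb hB (by omega) κ ε₀ (D + 12 * (W + 1)) _ η hκ0 hε₀ hη le_rfl m hm1 hm2 J s p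
    hp hs hscale hDense C (fun J hJ S hS hT => h1 (k + e) (by omega) J hJ S hS (by exact_mod_cast hT))

/-- an exponent for given `δ` -/
lemma exists_E (δ : ℝ) (hδ : 0 < δ) : ∃ E : ℕ, 1 ≤ E ∧ 3 / (E : ℝ) ≤ δ := by
  obtain ⟨E, hEδ⟩ := exists_nat_ge (3 / δ + 1)
  have hEr : (1 : ℝ) ≤ E := by
    have : 0 < 3 / δ := by positivity
    linarith
  have hE : 1 ≤ E := by exact_mod_cast hEr
  have hE0 : (0 : ℝ) < E := by linarith
  refine ⟨E, hE, ?_⟩
  rw [div_le_iff₀ hE0]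
  have h1 : 3 / δ ≤ E := by linarith
  rw [div_le_iff₀ hδ] at h1
  linarith

end Pool.Agent.HP84.RS
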